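import Pool.Agent.Results.MP_d4938b_nt.WeakApproximationFunctionField
import Pool.Agent.X67.GD.FF
import Pool.Agent.X67.GD.Poly

/-!
# Weak approximation for ALL Fano hypersurfaces over `F_q(t)` with generic leading coefficients, all types at once

Let `F` be a finite field and `L_k` natural numbers (for example `L_k = k`). There are numbers `g_k` such that for every
sequence `v_k ≥ g_k`, ALL `n ≥ 3` and `2 ≤ d ≤ n` and almost all power series `α_m = ∑ x_(m,i) t^(-1-i)`, one for each
monomial `m` of degree `d` in `n + 1` variables (the digits `x_(m,i)` are independent and uniformly distributed on `F`):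
for every `M`, for all large `k`, ALL the everywhere locally soluble hypersurfaces `f = 0` in `ℙⁿ` over `F(t)` with forms
`f` of degree `d` whose coefficients are at most of degree `L_k - 1` away from `t ^ (v_k) α` (the leading coefficients are
prescribed, the `L_k` lower coefficients are arbitrary) satisfy weak approximation with precision `M`. (No smoothness is
assumed; cubic surfaces are included.)

In `WeakApproximationFunctionField` this holds for 100% of the hypersurfaces of height less than `A`; the exceptions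
could contain members of each of the cubes. Proof: Borel-Cantelli.
-/

set_option autoImplicit false

namespace Pool.Agent.Results.MP_d4938b_nt.GenericPowerSeries

open Polynomial MeasureTheory Filter Finset Topology WithZero
open Pool.Agent.X67.GD (mons mem_mons Leading UniformDigits)
open WeakApproximationFunctionField (Forms HasLocalPoints WeakApproximation)

/-- the form of degree `d` in `n + 1` variables over `F[t]` with the coefficients `w` -/
noncomputable def formF {F : Type} [Field F] {n d : ℕ} (w : ↥(mons n d) → F[X]) : MvPolynomial (Fin (n + 1)) F[X] :=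
  ∑ a : ↥(mons n d), MvPolynomial.monomial a.1 (w a)

section Forms

variable {F : Type} [Field F] {n d : ℕ}

open scoped Classical in
theorem coeff_formF (w : ↥(mons n d) → F[X]) (m : Fin (n + 1) →₀ ℕ) :
    (formF w).coeff m = if h : m ∈ mons n d then w ⟨m, h⟩ else 0 := by
  unfold formF
  rw [MvPolynomial.coeff_sum]
  simp only [MvPolynomial.coeff_monomial]
  split_ifs with h
  · rw [Finset.sum_eq_single (⟨m, h⟩ : ↥(mons n d))]
    · simp
    · intro b _ hb
      rw [if_neg]
      intro h1
      exact hb (Subtype.ext h1)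
    · intro h1
      exact absurd (mem_univ _) h1
  · apply Finset.sum_eq_zero
    intro b _
    rw [if_neg]
    intro h1
    exact h (h1 ▸ b.2)

theorem formF_injective : Function.Injective (formF (F := F) (n := n) (d := d)) := by
  intro w w' h
  funext a
  have h1 : (formF w).coeff a.1 = (formF w').coeff a.1 := by rw [h]
  rw [coeff_formF, coeff_formF, dif_pos a.2, dif_pos a.2] at h1
  exact h1

theorem forms_eq (A : ℕ) : Forms F n d A = formF '' {w : ↥(mons n d) → F[X] | ∀ m, (w m).degree < A} := by
  classical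
  ext f
  constructor
  · rintro ⟨h1, h2⟩
    refine ⟨fun a => f.coeff a.1, fun m => h2 _, ?_⟩
    ext1 m
    rw [coeff_formF]
    split_ifs with h
    · rfl
    · symm
      apply h1.coeff_eq_zero
      rw [Finsupp.degree_eq_sum]
      exact fun h3 => h (mem_mons.2 h3)
  · rintro ⟨w, hw, rfl⟩
    constructor
    · unfold formF
      apply MvPolynomial.IsHomogeneous.sum
      intro a _
      apply MvPolynomial.isHomogeneous_monomial
      rw [Finsupp.degree_eq_sum]
      exact mem_mons.1 a.2
    · intro m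
      rw [coeff_formF]
      split_ifs with h
      · exact hw _
      · rw [degree_zero]
        exact WithBot.bot_lt_coe A

theorem weak_mono {M m : ℕ} (hm : M ≤ m) {f : MvPolynomial (Fin (n + 1)) F[X]} (h : WeakApproximation m f) :
    WeakApproximation M f := by
  intro z y hz hy
  obtain ⟨x, hx0, hxf, hx1, hx2⟩ := h z y hz hy
  refine ⟨x, hx0, hxf, fun v hv => ?_, ?_⟩
  · obtain ⟨Q, hQ, hQ0, hQd⟩ := hv
    obtain ⟨r, c, hr, hc, h3⟩ := hx1 v ⟨Q, hQ, hQ0, hQd.trans hm⟩
    refine ⟨r, c, hr, hc, fun i => (h3 i).trans ?_⟩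
    apply mul_le_mul_left
    rw [WithZero.exp_le_exp]
    have : (M : ℤ) ≤ m := by exact_mod_cast hm
    linarith
  · obtain ⟨r, c, hr, hc, h3⟩ := hx2
    refine ⟨r, c, hr, hc, fun i k hk => h3 i k ?_⟩
    have : (M : ℤ) ≤ m := by exact_mod_cast hm
    linarith

end Forms

theorem few (F : Type) [Field F] [Fintype F] (n d : ℕ) (hn : 3 ≤ n) (hd : 2 ≤ d) (hdn : d ≤ n) (M : ℕ) :
    Tendsto (fun A : ℕ => (({w : ↥(mons n d) → F[X] | w ∈ {w : ↥(mons n d) → F[X] | ∀ m, (w m).degree < A} ∧
      ¬ (HasLocalPoints (formF w) → WeakApproximation M (formF w))}.ncard : ℕ) : ℝ) /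
      (Fintype.card F : ℝ) ^ (A * Fintype.card ↥(mons n d))) atTop (𝓝 0) := by
  obtain ⟨m, hm, h3⟩ := WeakApproximationFunctionField.result F n d hn hd hdn
  have hq : (0 : ℝ) < Fintype.card F := by exact_mod_cast Fintype.card_pos
  refine Pool.Agent.X67.GD.few_of_ratio (fun A : ℕ => {w : ↥(mons n d) → F[X] | ∀ m, (w m).degree < A})
    Pool.Agent.X67.GD.finite_ff (fun A => (Fintype.card F : ℝ) ^ (A * Fintype.card ↥(mons n d)))
    (fun A => by positivity) Pool.Agent.X67.GD.ncard_ff formF formF_injective (fun A => Forms F n d A) forms_eq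
    (fun A f => HasLocalPoints f ∧ WeakApproximation (m A) f) (WeakApproximation M) HasLocalPoints
    (fun A f _ hf => hf.1) ?_ h3
  filter_upwards [tendsto_atTop.mp hm M] with A hA f _ hf
  exact weak_mono hA hf.2

/-- the triples `(n, d, M)` with `n ≥ 3`, `2 ≤ d ≤ n` -/
abbrev Idx : Type := {x : ℕ × ℕ × ℕ // 3 ≤ x.1 ∧ 2 ≤ x.2.1 ∧ x.2.1 ≤ x.1}

/-- **Theorem.** Let `F` be a finite field and `L_k` natural numbers. There are numbers `g_k` such that for every sequence
`v` with `v_k ≥ g_k` for all large `k`, ALL `n ≥ 3`, `2 ≤ d ≤ n` and all independent and uniformly distributed digits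
`X (m, i)` in `F` (`m` a monomial of degree `d` in `n + 1` variables, `i ≥ 0`), almost surely: for every `M`, for all
large `k`, for ALL forms `f` of degree `d` in `n + 1` variables over `F[t]` whose coefficients have degree less than `v_k`
and, from `t ^ (v_k - 1)` down to `t ^ (L_k)`, the digits `X (m, 0), X (m, 1), …`: if `f = 0` in `ℙⁿ` has points over all
the completions of `F(t)`, then it satisfies weak approximation with precision `M`. -/
theorem result (F : Type) [Field F] [Fintype F] (L : ℕ → ℕ) : ∃ g : ℕ → ℕ, ∀ v : ℕ → ℕ, (∀ᶠ k in atTop, g k ≤ v k) →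
    ∀ (n d : ℕ), 3 ≤ n → 2 ≤ d → d ≤ n →
      ∀ (Ω : Type) [MeasurableSpace Ω] (μ : Measure Ω) (X : ↥(mons n d) × ℕ → Ω → F), UniformDigits μ X →
        ∀ᵐ ω ∂μ, ∀ M : ℕ, ∃ k₀ : ℕ, ∀ k : ℕ, k₀ ≤ k → ∀ w : ↥(mons n d) → F[X],
          Leading (v k) (L k) (fun m i => X (m, i) ω) w →
            HasLocalPoints (formF w) → WeakApproximation M (formF w) := by
  have h1 : ∀ x : Idx, ∃ g : ℕ → ℕ, ∀ v : ℕ → ℕ, (∀ᶠ k in atTop, g k ≤ v k) →
      ∀ (Ω : Type) [MeasurableSpace Ω] (μ : Measure Ω) (X : ↥(mons x.1.1 x.1.2.1) × ℕ → Ω → F), UniformDigits μ X →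
        ∀ᵐ ω ∂μ, ∃ k₀ : ℕ, ∀ k : ℕ, k₀ ≤ k → ∀ w : ↥(mons x.1.1 x.1.2.1) → F[X],
          Leading (v k) (L k) (fun m i => X (m, i) ω) w →
            (HasLocalPoints (formF w) → WeakApproximation x.1.2.2 (formF w)) := fun x =>
    Pool.Agent.X67.GD.exists_gauge_ff _ (few F x.1.1 x.1.2.1 x.2.1 x.2.2.1 x.2.2.2 x.1.2.2) L
  choose g hg using h1
  obtain ⟨G, hG⟩ := Pool.Agent.X67.GD.exists_dominating_nat g
  refine ⟨G, fun v hv n d hn hd hdn Ω _ μ X hX => ?_⟩
  rw [ae_all_iff]
  intro M
  refine hg ⟨(n, d, M), hn, hd, hdn⟩ v ?_ Ω μ X hX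
  filter_upwards [hv, hG ⟨(n, d, M), hn, hd, hdn⟩] with k h2 h3
  exact h3.trans h2

end Pool.Agent.Results.MP_d4938b_nt.GenericPowerSeries
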