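import Pool.Agent.X292.FW.Fin

/-!
# Weak approximation for 100% of the Fano hypersurfaces over `F_q(t)`, cubic surfaces included

Let `F` be a finite field, `n ≥ 3` and `2 ≤ d ≤ n`, so that the smooth hypersurfaces of degree `d` in
`ℙⁿ` are Fano varieties. Among the forms of degree `d` in `n + 1` variables over `F[t]`, with
coefficients of degree less than `A`, which have nontrivial zeros over all the completions of
`F(t)`, a proportion tending to `1` as `A → ∞` satisfies weak approximation with precision `m(A)` at
infinity and at all the places of degree at most `m(A)`, where `m(A) → ∞`: every family of points of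
the hypersurface over the completions is approximated by one rational point.

The starting result `RandomFanoFunctionField` is the existence of a rational point; the proof follows it
(a second moment in classes of forms on which the local points have a fixed good position; a form
outside a small set has no almost singular local points at all at the small places).
-/

set_option autoImplicit false

namespace Pool.Agent.Results.MP_d4938b_nt.WeakApproximationFunctionField

open Polynomial IsDedekindDomain WithZero

/-- The forms of degree `d` in `n + 1` variables over `F[t]` all of whose coefficients have degree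
less than `A`. -/
def Forms (F : Type) [Field F] (n d A : ℕ) : Set (MvPolynomial (Fin (n + 1)) F[X]) :=
  {f | f.IsHomogeneous d ∧ ∀ m, (f.coeff m).degree < A}

/-- The embedding of `F[t]` in the completion `F((u))`, `u = 1 / t`, of `F(t)` at infinity:
`t` goes to the inverse of `u`. -/
noncomputable def toInfty (F : Type) [Field F] : F[X] →+* LaurentSeries F :=
  (Polynomial.aeval (HahnSeries.single (-1 : ℤ) (1 : F)) : F[X] →ₐ[F] LaurentSeries F).toRingHom

/-- The point `z`, over the completion of `F(t)` at the maximal ideal `v` of `F[t]`, lies on the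
hypersurface `f = 0`. -/
def IsLocalPoint {F : Type} [Field F] {n : ℕ} (f : MvPolynomial (Fin (n + 1)) F[X])
    (v : HeightOneSpectrum F[X]) (z : Fin (n + 1) → v.adicCompletion (RatFunc F)) : Prop :=
  z ≠ 0 ∧ MvPolynomial.aeval z f = 0

/-- The point `z`, over the completion of `F(t)` at infinity, lies on the hypersurface `f = 0`. -/
def IsPointAtInfty {F : Type} [Field F] {n : ℕ} (f : MvPolynomial (Fin (n + 1)) F[X])
    (z : Fin (n + 1) → LaurentSeries F) : Prop :=
  z ≠ 0 ∧ MvPolynomial.eval₂ (toInfty F) z f = 0

/-- The hypersurface `f = 0` has points over all the completions of `F(t)`. -/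
def HasLocalPoints {F : Type} [Field F] {n : ℕ} (f : MvPolynomial (Fin (n + 1)) F[X]) : Prop :=
  (∀ v : HeightOneSpectrum F[X], ∃ z, IsLocalPoint f v z) ∧ ∃ z, IsPointAtInfty f z

/-- In the projective space over the completion at `v`, the point `x` is close to the point `z`: for
some `c ≠ 0` all `z i - c x i` have absolute value at most `e ^ (-m)` times the absolute value of
a nonzero coordinate of `z` (here a uniformizer has absolute value `e ^ (-1)`). -/
def CloseAt {F : Type} [Field F] {n : ℕ} (v : HeightOneSpectrum F[X]) (m : ℕ)
    (z : Fin (n + 1) → v.adicCompletion (RatFunc F)) (x : Fin (n + 1) → F[X]) : Prop :=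
  ∃ (r : Fin (n + 1)) (c : v.adicCompletion (RatFunc F)), z r ≠ 0 ∧ c ≠ 0 ∧
    ∀ i, Valued.v (z i - c * algebraMap F[X] (v.adicCompletion (RatFunc F)) (x i)) ≤
      exp (-(m : ℤ)) * Valued.v (z r)

/-- In the projective space over the completion at infinity, the point `x` is close to the point `z`:
for some `c ≠ 0` the series `z i - c x i` have no terms of order less than `m` plus the order of
a nonzero coordinate of `z`. -/
def CloseAtInfty {F : Type} [Field F] {n : ℕ} (m : ℕ) (z : Fin (n + 1) → LaurentSeries F)
    (x : Fin (n + 1) → F[X]) : Prop :=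
  ∃ (r : Fin (n + 1)) (c : LaurentSeries F), z r ≠ 0 ∧ c ≠ 0 ∧ ∀ i, ∀ k : ℤ,
    k < (z r).order + m → (z i - c * toInfty F (x i)).coeff k = 0

/-- Weak approximation with precision `m` at infinity and at all the places of degree at most `m`
(the maximal ideals which contain a nonzero polynomial of degree at most `m`): all families of
points over the completions are approximated by one rational point, given by polynomials. -/
def WeakApproximation {F : Type} [Field F] {n : ℕ} (m : ℕ)
    (f : MvPolynomial (Fin (n + 1)) F[X]) : Prop :=
  ∀ (z : ∀ v : HeightOneSpectrum F[X], Fin (n + 1) → v.adicCompletion (RatFunc F))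
    (y : Fin (n + 1) → LaurentSeries F), (∀ v, IsLocalPoint f v (z v)) → IsPointAtInfty f y →
    ∃ x : Fin (n + 1) → F[X], x ≠ 0 ∧ MvPolynomial.eval x f = 0 ∧
      (∀ v : HeightOneSpectrum F[X], (∃ Q ∈ v.asIdeal, Q ≠ 0 ∧ Q.natDegree ≤ m) →
        CloseAt v m (z v) x) ∧ CloseAtInfty m y x

/-- **Weak approximation for 100% of the Fano hypersurfaces over `F_q(t)`.** -/
theorem result (F : Type) [Field F] [Finite F] (n d : ℕ) (hn : 3 ≤ n) (hd : 2 ≤ d)
    (hdn : d ≤ n) :
    ∃ m : ℕ → ℕ, Filter.Tendsto m Filter.atTop Filter.atTop ∧
      Filter.Tendsto (fun A : ℕ =>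
        (({f ∈ Forms F n d A | HasLocalPoints f ∧ WeakApproximation (m A) f} : Set _).ncard : ℝ) /
        (({f ∈ Forms F n d A | HasLocalPoints f} : Set _).ncard : ℝ))
        Filter.atTop (nhds 1) := by
  obtain ⟨e, rfl⟩ : ∃ e, d = e + 2 := ⟨d - 2, by omega⟩
  obtain ⟨m, h1, h2⟩ := Pool.Agent.X292.FW.main (F := F) (ι := Fin (n + 1)) e
    (by rw [Fintype.card_fin]; omega) (by rw [Fintype.card_fin]; omega)
  refine ⟨m, h1, ?_⟩
  have h3 : ∀ (k : ℕ) (f : MvPolynomial (Fin (n + 1)) F[X]),
      WeakApproximation k f ↔ Pool.Agent.X292.FW.WeakApprox k f := fun k f =>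
    ⟨fun h z y hz hy0 hy => h z y hz ⟨hy0, hy⟩, fun h z y hz hy => h z y hz hy.1 hy.2⟩
  simp only [h3]
  exact h2

end Pool.Agent.Results.MP_d4938b_nt.WeakApproximationFunctionField
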